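import Pool.Agent.U207.RC.Conn

set_option autoImplicit false

/-!
# Rationally connected varieties with fibrations in curves of genus at most one whose common base is a
curve are potentially dense

Let `k₀` be a finitely generated field of characteristic zero (for instance a number field) with
algebraic closure `Ω`, and let `X` be the hypersurface `F = 0`, for a polynomial `F` over `k₀` which
is irreducible over `Ω`, with the function field `K` over `Ω` (every geometrically integral variety
over `k₀` is birational to such a hypersurface). Let finitely many dominant rational fibrations of `X`
in curves of genus at most one be given, over `Ω`, by their fields of functions `L 1, …, L m` of the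
bases, intermediate fields of `K`. The fibres need no section, and no transversality is supposed.

The functions in `K` which are algebraic over every `L i` form the field of functions of a variety
`B`, the common base of the fibrations: the general fibres of `X ⇢ B` are the varieties connected by
chains of fibres of the given fibrations. If `B` is a point, then `X` is potentially dense
(`GenusOneFibrations` of MP_9410e4_ag, for all `X`). For instance, for a threefold two fibrations in
curves of genus at most one, over surfaces, have in general a point or a curve as common base; it is
a curve if both fibrations are fibrations of the fibres of one fibration `X ⇢ ℙ¹`, as for the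
fibrations in K3 surfaces or abelian surfaces with two elliptic fibrations.

The theorem: if `X` is rationally connected and the dimension of `B` is at most one, then `X`, and
every scheme over `k₀` dominated by `X`, is potentially dense. That the dimension is at most one is
expressed as follows: there is a set `S` with at most one element of coordinates of `X`, such that the
functions of `B` are algebraic over the coordinate in `S`, which is transcendental.

That `X` is rationally connected is expressed by a family of rational curves which connects two
general points: there are a variety `W`, the hypersurface `G = 0` with function field `E` and generic
point `ω`, and a rational curve over `E`, with the coordinates `a l / b`, polynomials in one variable,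
which is on `X` and such that the points with the parameters `0` and `1` are a pair of general
points, that is the rational map `W ⇢ X × X` is dominant (`IsConnecting`, in
`Pool/Agent/U207/RC/Conn.lean`). It is not supposed that the family is defined over `k₀`.

The proof. As `B` is a curve and the rational curves connect two general points of `X`, they dominate
`B`. So `X` is covered by rational curves which dominate the common base, and the theorem follows
from the theorem on potential density for coverings by unirational subvarieties which dominate the
common base (`CoveredByMultisections` of MP_1bf689_ag): near a point of a rational curve over `ℚ_p`
which is generic over the field `k` of definition, there are rational curves defined over a finite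
extension `M` of `k` in `ℚ_p`, and therefore points of `X` over `M` whose images in `B` are infinitely
many; these points can be moved along the fibres of the fibrations, since in a `p`-adic neighbourhood
of a generic point the relevant points of the elliptic curves are not torsion points.
-/

namespace Pool.Agent.Results.MP_b62148_ag.GenusOneOverCurve

open MvPolynomial AlgebraicGeometry CategoryTheory
open Pool.Agent.W572 Pool.Agent.W572.G Pool.Agent.Y742.GG Pool.Agent.U207.RC

section

variable {Ω K : Type} [Field Ω] [Field K] [Algebra Ω K] {N m : ℕ}

/-- The intermediate fields `L i` define fibrations in curves of genus at most one: `K` is over `L i`
the function field of a curve `w² = Q(t)`, with `Q` of degree at most four and not a constant times a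
square, or of a torsor under an elliptic curve. -/
def IsGenusOneFamily (L : Fin m → IntermediateField Ω K) : Prop :=
  ∀ i, IsDoubleCoverOfLine (L i) ∨ IsEllipticTorsor (L i)

/-- The coordinates `x s`, `s` in `S`, are coordinates of the common base of the fibrations: they are
algebraically independent, and all the elements of `K` which are algebraic over every `L i` are
algebraic over them. -/
structure IsCommonBase (x : Fin N → K) (L : Fin m → IntermediateField Ω K) (S : Set (Fin N)) :
    Prop where
  independent : AlgebraicIndependent Ω (fun s : S => x s)
  algebraic : ∀ a : K, (∀ i, IsAlgebraic (L i) a) → IsAlgebraic (Algebra.adjoin Ω (x '' S)) a

/-- The hypersurface `F = 0` is rationally connected: there is a family of rational curves on it,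
with an irreducible hypersurface `G = 0` with function field `E` as parameter space, which connects
two general points. -/
def IsRationallyConnected (F : MvPolynomial (Fin N) Ω) : Prop :=
  ∃ (q : ℕ) (G : MvPolynomial (Fin q) Ω) (E : Type) (_ : Field E) (_ : Algebra Ω E)
    (ω : Fin q → E) (a : Fin N → Polynomial E) (b : Polynomial E),
    Irreducible G ∧ IsGenericPoint G ω ∧ IsConnecting F a b

end

/-- Let `F` be a polynomial over `k₀` (a finitely generated field of characteristic zero),
irreducible over the algebraic closure, such that `F = 0` is rationally connected, and let `K` be the
function field of `F = 0` over the algebraic closure and `x` the generic point. Let `L i` be finitely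
many intermediate fields of `K` which define fibrations in curves of genus at most one, and let the
coordinates with index in `S` be coordinates of their common base, where `S` has at most one element.
Then every scheme over `k₀` to which the hypersurface `F = 0` admits a dominant rational map over `k₀`
is potentially dense. -/
theorem result (k₀ : Type) [Field k₀] [CharZero k₀]
    (hk₀ : ∃ T : Finset k₀, IntermediateField.adjoin ℚ (T : Set k₀) = ⊤) {N m : ℕ}
    (F : MvPolynomial (Fin N) k₀)
    (hF : Irreducible (map (algebraMap k₀ (AlgebraicClosure k₀)) F))
    (hRC : IsRationallyConnected (map (algebraMap k₀ (AlgebraicClosure k₀)) F))
    {K : Type} [Field K] [Algebra (AlgebraicClosure k₀) K] {x : Fin N → K}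
    (hx : IsGenericPoint (map (algebraMap k₀ (AlgebraicClosure k₀)) F) x)
    (L : Fin m → IntermediateField (AlgebraicClosure k₀) K) (hL : IsGenusOneFamily L)
    (S : Set (Fin N)) (hS : IsCommonBase x L S) (hS1 : S.Subsingleton)
    (X : Scheme.{0}) (sX : X ⟶ Spec (.of k₀)) (f : (hypersurface F).PartialMap X)
    (hf : IsDominant f.hom) (hfk : f.hom ≫ sX = f.domain.ι ≫ hypersurfaceStr F) :
    PotentiallyDense sX := by
  obtain ⟨q, G, E, _, _, ω, a, b, hG, hω, h⟩ := hRC
  have hcE : CharZero E :=
    charZero_of_injective_algebraMap (algebraMap (AlgebraicClosure k₀) E).injective
  refine Pool.Agent.U207.PD.main_covY k₀ hk₀ F hF hx L hL S hS.independent hS.algebraic hG hω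
    (gp a b) (fun P => ?_) ?_ sX f hf hfk
  · rw [h.gp_zero hF, hx.zero_iff]
  · rcases hS1.eq_empty_or_singleton with rfl | ⟨s, rfl⟩
    · exact algebraicIndependent_empty_type_iff.2 (algebraMap E _).injective
    · have h1 : Transcendental (AlgebraicClosure k₀) (x s) :=
        hS.independent.transcendental ⟨s, rfl⟩
      exact algebraicIndependent_unique_type_iff.2 (h.transcendental hF hx h1)

end Pool.Agent.Results.MP_b62148_ag.GenusOneOverCurve
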