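import Pool.Agent.U207.IM.Base

/-!
# Potential density is decided on the base of the immovable fibration

Let `X` be a variety over an algebraically closed field `k` of characteristic zero, for instance the
field of algebraic numbers, and `K` its function field. A function `a` on `X` is movable if `σ a ∉ K` for
some `k`-homomorphism `σ : K → K(t₁, …, tₙ)`, that is, if it is not constant along some rational
family `X × 𝔸ⁿ ⇢ X`. The other functions form an algebraically closed subfield `M` of `K`, the function
field of the base `B` of the immovable fibration `X ⇢ B`. We take an affine model of `X` such that some of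
its coordinates are a transcendence basis of `M` (every variety has such models); so the projection
`X → 𝔸ʳ` to these coordinates factors through a generically finite map from `B` to `𝔸ʳ`, and a set of
points of `X` has dense image in `B` if and only if it has dense image in `𝔸ʳ`.

Theorem. There are a nonempty open subset `U` of `X` and a finite set `T` in `k` such that for all
subfields `E` of `k` which contain `T` (for example number fields):

* the `E`-rational points are Zariski dense in `X` if and only if the image of the `E`-rational points of
  `U` is Zariski dense in the base `B`.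

So `X` is potentially dense if and only if the points of `U` over some number field have dense
image in `B`, for instance if there is a potentially dense subvariety `Z` of `X` which
dominates `B` and is not contained in the complement of `U`: a surface `Z`, if `dim B = 2`. If `X` is
rationally connected, then `B` is a point and `X` is unirational and potentially dense, or
`dim B ≥ 2`. A rationally connected threefold is potentially dense, or no function on it is movable,
or it is a conic bundle over a surface `B`, and then potential density follows if there is one
potentially dense surface `Z` in `X` which dominates `B` and meets `U`.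

Nothing is assumed about rational points on the fibres of `X ⇢ B`.

Proof. There is one family `φ : X × 𝔸ⁿ ⇢ X` which moves all the functions independently which are
independent over `M`. It maps the fibre over `b` to the fibre over `ψ(b)`, and for all points `c` in an open
subset `U`, also over subfields, the map `t ↦ φ(c, t)` from the affine space to the fibre over `ψ(b(c))`
has dense image. So an `E`-rational point `c` of `U` spreads to a dense set of `E`-rational points of
the fibre over `ψ(b(c))`.
-/

set_option autoImplicit false

universe u

namespace Pool.Agent.Results.MP_b62148_ag.ImmovableBaseDensity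

section defs

variable {k K : Type u} [Field k] [Field K] [Algebra k K] {N : ℕ}

/-- `K` embeds into a field of rational functions. -/
def Unirational (k K : Type u) [Field k] [Field K] [Algebra k K] : Prop :=
  ∃ n : ℕ, Nonempty (K →ₐ[k] FractionRing (MvPolynomial (Fin n) k))

/-- The function `a` is moved by a rational family of rational self-maps. -/
def Movable (k : Type u) {K : Type u} [Field k] [Field K] [Algebra k K] (a : K) : Prop :=
  ∃ (n : ℕ) (σ : K →ₐ[k] FractionRing (MvPolynomial (Fin n) K)),
    σ a ∉ Set.range (algebraMap K (FractionRing (MvPolynomial (Fin n) K)))

/-- `z` is a point, with coordinates in the extension `L` of `k`, of the affine variety `X` with the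
generic point `x`: it satisfies all the equations over `k` which are satisfied by `x`. -/
def IsPoint (x : Fin N → K) {L : Type u} [Field L] [Algebra k L] (z : Fin N → L) : Prop :=
  ∀ Q : MvPolynomial (Fin N) k, MvPolynomial.aeval x Q = 0 → MvPolynomial.aeval z Q = 0

/-- The points of `X` with coordinates in the subfield `E` of `k` are Zariski dense in `X`. -/
def IsDense (x : Fin N → K) (E : Subfield k) : Prop :=
  ∀ G : MvPolynomial (Fin N) k, MvPolynomial.aeval x G ≠ 0 →
    ∃ c : Fin N → k, IsPoint (k := k) x c ∧ (∀ i, c i ∈ E) ∧ MvPolynomial.aeval c G ≠ 0

/-- For a finitely generated subfield of `k` (a number field, if `k` is the field of algebraic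
numbers) the points of `X` with coordinates in this field are Zariski dense in `X`. -/
def PotentiallyDense (x : Fin N → K) : Prop :=
  ∃ T : Finset k, IsDense x (Subfield.closure (T : Set k))

/-- The coordinates `x i`, `i ∈ S`, are coordinates of the base of the immovable fibration: a
transcendence basis of the field of the immovable functions. -/
structure IsBase (x : Fin N → K) (S : Set (Fin N)) : Prop where
  immovable : ∀ i ∈ S, ¬ Movable k (x i)
  independent : AlgebraicIndependent k (fun i : S => x i)
  algebraic : ∀ a : K, ¬ Movable k a → IsAlgebraic (Algebra.adjoin k (x '' S)) a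

/-- The points of the open subset `g ≠ 0` of `X` with coordinates in `E` have Zariski dense image in
the affine space with the coordinates in `S`. -/
def DenseInBase (x : Fin N → K) (S : Set (Fin N)) (g : MvPolynomial (Fin N) k) (E : Subfield k) :
    Prop :=
  ∀ h : MvPolynomial S k, h ≠ 0 → ∃ c : Fin N → k, IsPoint (k := k) x c ∧ (∀ i, c i ∈ E) ∧
    MvPolynomial.aeval c g ≠ 0 ∧ MvPolynomial.aeval (fun i : S => c i) h ≠ 0

/-- The points `p` and `q` are on a rational curve in `X`: there are rational functions `a i / b` of
one variable `s` which satisfy the equations of `X` and have the values `p i` at `s = 0` and `q i`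
at `s = 1`. -/
def Joined (x : Fin N → K) (p q : Fin N → k) : Prop :=
  ∃ (a : Fin N → Polynomial k) (b : Polynomial k), b.eval 0 ≠ 0 ∧ b.eval 1 ≠ 0 ∧
    (∀ i, (a i).eval 0 = p i * b.eval 0) ∧ (∀ i, (a i).eval 1 = q i * b.eval 1) ∧
    ∀ Q : MvPolynomial (Fin N) k, MvPolynomial.aeval x Q = 0 →
      MvPolynomial.aeval (fun i => algebraMap (Polynomial k) (RatFunc k) (a i) /
        algebraMap (Polynomial k) (RatFunc k) b) Q = 0

/-- Two general points of `X` are on a rational curve: all pairs of points in a nonempty open subset
`H ≠ 0` of `X × X` are. -/
def RationallyConnected (x : Fin N → K) : Prop :=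
  ∃ H : MvPolynomial (Fin N ⊕ Fin N) k,
    (∃ p q : Fin N → k, IsPoint (k := k) x p ∧ IsPoint (k := k) x q ∧
      MvPolynomial.eval (Sum.elim p q) H ≠ 0) ∧
    ∀ p q : Fin N → k, IsPoint (k := k) x p → IsPoint (k := k) x q →
      MvPolynomial.eval (Sum.elim p q) H ≠ 0 → Joined x p q

end defs

open Pool.Agent.U207.IM Pool.Agent.R867.Mov Pool.Agent.R867.D in
/-- Let `k` be algebraically closed of characteristic zero and `K` a finitely generated extension of
`k`. (0) There are generators `x` of `K`, the generic point of an affine variety, some of which are
coordinates of the base of the immovable fibration.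
Let `x` be such generators, `X` the variety, and let the coordinates in `S` be the coordinates of the
base. There are a nonempty open subset `g ≠ 0` of `X` and a finite set `T` in `k` with the following
properties.
(1) For all subfields `E` of `k` which contain `T`, the points of `X` with coordinates in `E` are Zariski
dense in `X` if and only if the image of those in the open subset is dense in the base.
(2) `X` is potentially dense if and only if for some finitely generated subfield `E` of `k` the
image of the points with coordinates in `E` of the open subset is dense in the base.
(3) `X` is potentially dense if there is a potentially dense subvariety `Z`, with generic point `z`,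
which meets the open subset and dominates the base.
(4) If `X` is rationally connected, then `S` is empty and `X` is unirational and potentially dense, or
`S` has at least two elements; if moreover the dimension of `X` is three, then `X` is unirational and
potentially dense, or no function on `X` is movable, or `S` has two elements. -/
theorem result (k : Type u) [Field k] [IsAlgClosed k] [CharZero k] (K : Type u) [Field K]
    [Algebra k K] (hfg : ∃ G : Finset K, IntermediateField.adjoin k (G : Set K) = ⊤) :
    (∃ (N : ℕ) (x : Fin N → K) (S : Set (Fin N)),
      IntermediateField.adjoin k (Set.range x) = ⊤ ∧ IsBase (k := k) x S) ∧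
    ∀ (N : ℕ) (x : Fin N → K) (S : Set (Fin N)), IntermediateField.adjoin k (Set.range x) = ⊤ →
      IsBase (k := k) x S →
      (∃ g : MvPolynomial (Fin N) k, MvPolynomial.aeval x g ≠ 0 ∧ ∃ T : Finset k,
        (∀ E : Subfield k, (T : Set k) ⊆ E → (IsDense x E ↔ DenseInBase x S g E)) ∧
        (PotentiallyDense (k := k) x ↔
          ∃ T' : Finset k, DenseInBase x S g (Subfield.closure (T' : Set k))) ∧
        ∀ (L : Type u) [Field L] [Algebra k L] (z : Fin N → L), IsPoint (k := k) x z →
          MvPolynomial.aeval z g ≠ 0 → AlgebraicIndependent k (fun i : S => z i) →
          PotentiallyDense (k := k) z → PotentiallyDense (k := k) x) ∧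
      (RationallyConnected (k := k) x →
        ((S = ∅ ∧ Unirational k K ∧ PotentiallyDense (k := k) x) ∨ 2 ≤ S.ncard) ∧
        (Algebra.trdeg k K = 3 → (Unirational k K ∧ PotentiallyDense (k := k) x) ∨
          (∀ a : K, ¬ Movable k a) ∨ S.ncard = 2)) := by
  have hmem : ∀ a : K, Imm k a ↔ ¬ Movable k a := by
    intro a
    constructor
    · rintro ha ⟨n, σ, hσ⟩
      exact hσ (ha n σ)
    · intro h n σ
      by_contra h2
      exact h ⟨n, σ, h2⟩
  constructor
  · obtain ⟨N, x, S, hx, h1, h2, h3⟩ := exists_coords hfg
    exact ⟨N, x, S, hx, ⟨fun i hi => (hmem _).mp (h1 i hi), h2, fun a ha => h3 a ((hmem a).mpr ha)⟩⟩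
  intro N x S hx hS
  have h1 : ∀ i ∈ S, Imm k (x i) := fun i hi => (hmem _).mpr (hS.immovable i hi)
  have h2 : AlgebraicIndepOn k x S := hS.independent
  have h3 : ∀ a, Imm k a → a ∈ cl k (x '' S) := fun a ha => hS.algebraic a ((hmem a).mp ha)
  have hinf : ∀ E : Subfield k, Infinite E := fun E => by
    have : CharZero E := inferInstance
    infer_instance
  obtain ⟨g, hg, T, hT⟩ := base_main hx h1 h2 h3
  have hpot : ∀ T' : Finset k, DenseInBase x S g (Subfield.closure (T' : Set k)) →
      PotentiallyDense (k := k) x := by
    classical
    intro T' h
    refine ⟨T ∪ T', ?_⟩
    refine (hT _ (hinf _) ?_).mpr (BaseDense.mono (Subfield.closure_mono ?_) h)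
    · intro a ha
      apply Subfield.subset_closure
      rw [Finset.coe_union]
      exact Or.inl ha
    · rw [Finset.coe_union]
      exact Set.subset_union_right
  have hpot' : PotentiallyDense (k := k) x →
      ∃ T' : Finset k, DenseInBase x S g (Subfield.closure (T' : Set k)) := by
    classical
    rintro ⟨T', h⟩
    refine ⟨T ∪ T', (hT _ (hinf _) ?_).mp (Dens.mono (Subfield.closure_mono ?_) h)⟩
    · intro a ha
      apply Subfield.subset_closure
      rw [Finset.coe_union]
      exact Or.inl ha
    · rw [Finset.coe_union]
      exact Set.subset_union_right
  refine ⟨⟨g, hg, T, fun E hE => hT E (hinf E) hE, ⟨hpot', fun ⟨T', h⟩ => hpot T' h⟩, ?_⟩, ?_⟩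
  · rintro L _ _ z hz hzg hzS ⟨T', hd⟩
    exact hpot T' (baseDense_of_sub hz hzg hzS hd)
  · intro hRC
    have hC : CurvePts k x := by
      refine curvePts_of_rc ?_
      obtain ⟨H, ⟨p, q, hp, hq, hpq⟩, hJ⟩ := hRC
      have hpt : ∀ p : Fin N → k, Pool.Agent.R867.D.IsPoint x p ↔ IsPoint (k := k) x p := by
        intro p
        constructor
        · intro h Q hQ
          rw [MvPolynomial.aeval_eq_eval]
          exact h Q hQ
        · intro h Q hQ
          have h4 := h Q hQ
          rwa [MvPolynomial.aeval_eq_eval] at h4
      exact ⟨H, ⟨p, q, (hpt p).mpr hp, (hpt q).mpr hq, hpq⟩,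
        fun p q hp hq hpq => hJ p q ((hpt p).mp hp) ((hpt q).mp hq) hpq⟩
    have huni : Unirational k K → S = ∅ ∧ Unirational k K ∧ PotentiallyDense (k := k) x := by
      intro h
      have h4 := (unirational_iff hx).mp h
      have h5 : S = ∅ := by
        rw [Set.eq_empty_iff_forall_notMem]
        intro i hi
        have h6 : x i ∈ immField k K := h1 i hi
        rw [h4, IntermediateField.mem_bot] at h6
        obtain ⟨c, hc⟩ := h6
        have h7 := hS.independent.transcendental ⟨i, hi⟩
        apply h7
        change IsAlgebraic k (x i)
        rw [← hc]
        exact isAlgebraic_algebraMap c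
      obtain ⟨T', h6⟩ := baseDense_empty (x := x) h5 hg
      exact ⟨h5, h, hpot T' h6⟩
    have hcard := base_card h1 h2 h3
    refine ⟨?_, ?_⟩
    · rcases rc_two hx hC with h | h
      · exact Or.inl (huni h)
      · right
        rw [← hcard] at h
        exact_mod_cast h
    · intro h4
      rcases threefold hx hC h4 with h | h | ⟨h, -⟩
      · exact Or.inl (huni h).2
      · right
        left
        intro a
        rw [← hmem]
        have h5 : a ∈ immField k K := by rw [h]; trivial
        exact h5
      · right
        right
        rw [← hcard] at h
        exact_mod_cast h

end Pool.Agent.Results.MP_b62148_ag.ImmovableBaseDensity
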