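import Pool.Agent.U785.PD.A

/-!
# Rational points on varieties with an abelian group of automorphisms of maximal rank

`V` is a projective variety of dimension `n ≥ 2` over a number field `K` (for the question:
smooth and rationally connected) and `Γ` an abelian group of automorphisms of `V`, defined over `K`,
which contains a free abelian group of rank `n - 1` all of whose nonzero elements have positive
entropy, that is first dynamical degree larger than one.

There is a `Γ`-invariant proper closed subset `B` such that for EVERY finite extension `L` of `K` the
set `V(L)` is Zariski dense if and only if it has infinitely many points outside of `B`, if and only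
if it has one point outside of `B` with an infinite `Γ`-orbit. For each `e` only finitely
many points outside of `B` are defined over an extension `L` of degree at most `e` for which `V(L)` is
not dense. For all `L` containing a suitable finite extension `V(L)` is dense.

The theorem on orbits over the algebraic closure is `MP_9410e4_ag.PositiveEntropyDensity` (helper935).
-/

set_option autoImplicit false

namespace Pool.Agent.Results.MP_b62148_ag.MaximalRankAutomorphisms

open Pool.Agent.Q8.KS Pool.Agent.U935.KS Filter Topology
open Pool.Agent.U785.PD (PointsOver)

/-- **Rational points on varieties with an abelian group of automorphisms of maximal rank.** -/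
theorem result {G Γ : Type} [Group G] [AddCommGroup Γ] (V : Variety G) (hV : NumberField V)
    (Z : Zariski V) (Q : Geometry V Z) (P : GroupAction Q Γ) (S : IntersectionNumbers Q)
    (hS : Preserves P S) (hdim : 2 ≤ V.dimPred + 1) (hP : MaximalEntropyRank P) :
    (∃ B : Set V.Pt, Exceptional P B ∧
      (∀ H : Subgroup G, H.FiniteIndex → List.TFAE [@Dense _ Z.top (PointsOver V H),
        (PointsOver V H \ B).Infinite,
        ∃ x ∈ PointsOver V H \ B, InfiniteUnder P x]) ∧
      ∀ e : ℕ, {x : V.Pt | x ∉ B ∧ ∃ H : Subgroup G, H.FiniteIndex ∧ H.index ≤ e ∧
        x ∈ PointsOver V H ∧ ¬ @Dense _ Z.top (PointsOver V H)}.Finite) ∧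
    ∃ H₀ : Subgroup G, H₀.FiniteIndex ∧ ∀ H ≤ H₀, @Dense _ Z.top (PointsOver V H) :=
  ⟨Pool.Agent.U785.PD.points hV P S hS hdim hP, Pool.Agent.U785.PD.large hV P S hS hdim hP⟩

end Pool.Agent.Results.MP_b62148_ag.MaximalRankAutomorphisms
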