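import Pool.Agent.U449.BV.SV
import Pool.Agent.Results.MP_b62148_ag.RandomUnirational

/-!
# Unirationality and dense rational points for the forms near the values of vector functions on arbitrary dense sets

Let `k ≥ 2`, `n i ≥ 1` and `2 ≤ d i ≤ 3`, `d i ≤ n i + 1` for all `i < k`, `d i ≤ n i` for at least one `i`, and let `N` be the number of
the monomials of multidegree `d`. Let `p` be a large prime, `φ(x, y)` ANY polynomial of bounded degree over the field of `q = p ^ N`
elements with a monomial which contains both variables (for example `φ = x y`), let `A`, `B` be ARBITRARY subsets of this field with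
at least `η q` elements, and `g`, `h` ARBITRARY functions. For all but `η |A| |B|` of the pairs `(a, b)` in `A × B`: for ALL integral
forms `f` of multidegree `d` whose coefficients are at a distance of at most `W` from the least residues of the `N` coordinates of
`φ(a, b) + g(a) + h(b)`, if the hypersurface `X_f` has points over the real numbers and over all the `p`-adic fields, then it is
integral and unirational with Zariski dense points over all fields of characteristic zero. More generally, this holds for the values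
`F(a, b)` of all vector functions of two variables with few coincidences (`RareV`), on arbitrary dense finite sets.

Since the sets and the functions `g` and `h` are arbitrary, the forms have no arithmetic structure, and a form may be
taken by very many pairs. So the count of the exceptions (starting library) does not give the result directly. Proof: the
inequality of Cauchy and Schwarz; for most pairs `a, a'` the difference `F(a, b) - F(a', b)` is small for few `b`
(`Pool.Agent.U449.BV`).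
-/

set_option autoImplicit false

namespace Pool.Agent.Results.MP_b62148_ag.MixedOnDenseSets

open Finset
open Pool.Agent.U449.BV (RareV dense_zero_v coordinates)
open Pool.Agent.Results.MP_b62148_ag.RandomUnirational (Forms IsPoint LocallySoluble formOver IsUnirational IsDense)

/-- the exponents of the monomials of multidegree `d` -/
def Mono {k : ℕ} (n d : Fin k → ℕ) : Set ((Σ i : Fin k, Fin (n i + 1)) →₀ ℕ) :=
  {s | ∀ i : Fin k, ∑ j : Fin (n i + 1), s ⟨i, j⟩ = d i}

/-- `X_f` is integral and unirational with Zariski dense points over all fields of characteristic zero. -/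
def Good {k : ℕ} {n : Fin k → ℕ} (f : MvPolynomial (Σ i : Fin k, Fin (n i + 1)) ℤ) : Prop :=
  ∀ (L : Type) [Field L] [CharZero L], Irreducible (formOver L f) ∧ IsUnirational L f ∧ IsDense L f

/-- ALL forms `f` of multidegree `d` with integral coefficients whose coefficient at the monomial `e i` is at a distance of at
most `W` from `x i`, for all `i`, and whose hypersurface is everywhere locally soluble are `Good`. -/
def Near {k : ℕ} {n d : Fin k → ℕ} {N : ℕ} (e : Fin N ≃ Mono n d) (W : ℝ) (x : Fin N → ℝ) : Prop :=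
  ∀ f : MvPolynomial (Σ i : Fin k, Fin (n i + 1)) ℤ, (∀ s ∈ f.support, s ∈ Mono n d) →
    (∀ i, |((f.coeff (e i : (Σ i : Fin k, Fin (n i + 1)) →₀ ℕ) : ℤ) : ℝ) - x i| ≤ W) → LocallySoluble f → Good f

lemma mono_finite {k : ℕ} (n d : Fin k → ℕ) : (Mono n d).Finite := by
  classical
  have h : {g : (Σ i : Fin k, Fin (n i + 1)) → ℕ | ∀ v, g v ∈ Set.Iic (d v.1)}.Finite :=
    Set.Finite.pi' fun v => Set.finite_Iic _
  refine Set.Finite.of_finite_image (f := fun s : (Σ i : Fin k, Fin (n i + 1)) →₀ ℕ => fun v => s v)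
    (h.subset ?_) (fun s _ t _ hst => DFunLike.ext _ _ fun v => congrFun hst v)
  rintro _ ⟨s, hs, rfl⟩ v
  rw [Set.mem_Iic]
  obtain ⟨i, j⟩ := v
  have h1 := hs i
  dsimp only
  rw [← h1]
  exact Finset.single_le_sum (f := fun j => s ⟨i, j⟩) (fun _ _ => Nat.zero_le _) (mem_univ j)

lemma forms_card {k : ℕ} {n d : Fin k → ℕ} {N : ℕ} (e : Fin N ≃ Mono n d) (H : ℕ) :
    (Forms n d H).Finite ∧ (Forms n d H).ncard ≤ (2 * H + 1) ^ N := by
  classical
  obtain ⟨c, hc⟩ : ∃ c : MvPolynomial (Σ i : Fin k, Fin (n i + 1)) ℤ → Fin N → ℤ,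
      c = fun f i => f.coeff (e i : (Σ i : Fin k, Fin (n i + 1)) →₀ ℕ) := ⟨_, rfl⟩
  have hinj : Set.InjOn c (Forms n d H) := by
    intro f hf g hg hfg
    ext s
    by_cases hs : s ∈ Mono n d
    · have h1 := congrFun hfg (e.symm ⟨s, hs⟩)
      rw [hc] at h1
      simpa using h1
    · have h1 : s ∉ f.support := fun h => hs (hf.1 s h)
      have h2 : s ∉ g.support := fun h => hs (hg.1 s h)
      rw [MvPolynomial.notMem_support_iff] at h1 h2
      rw [h1, h2]
  have himg : c '' (Forms n d H) ⊆ (Fintype.piFinset fun _ : Fin N => Icc (-(H : ℤ)) H : Finset (Fin N → ℤ)) := by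
    rintro _ ⟨f, hf, rfl⟩
    rw [mem_coe, Fintype.mem_piFinset]
    intro i
    rw [mem_Icc, hc]
    exact abs_le.1 (hf.2 _)
  refine ⟨Set.Finite.of_finite_image ((Finset.finite_toSet _).subset himg) hinj, ?_⟩
  rw [← Set.InjOn.ncard_image hinj]
  refine (Set.ncard_le_ncard himg (Finset.finite_toSet _)).trans (le_of_eq ?_)
  rw [Set.ncard_coe_finset, Fintype.card_piFinset, Finset.prod_const, Finset.card_univ, Fintype.card_fin, Int.card_Icc]
  congr 1
  omega

/-- **Theorem.** Let `k ≥ 2`, `n i ≥ 1`, `2 ≤ d i ≤ 3`, `d i ≤ n i + 1` for all `i < k`, and `d i ≤ n i` for at least one `i`. There are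
only finitely many monomials of multidegree `d`; let `e` be a numbering by `0, …, N - 1`. For all `η > 0`, `W ≥ 1` and `D`, for all
large `X`: for all finite sets `A`, `B` of at least `η X ^ N` elements and all vector functions `F`, `|F_i| ≤ X`, with few
coincidences, for all but `η |A| |B|` of the pairs `(a, b)` ALL everywhere locally soluble forms with coefficients at a distance of at
most `W` from the `F_i(a, b)` are `Good` (`Near`).
The tuples of the least residues modulo `p` of the coordinates (with respect to a basis over the field of `p` elements) of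
`f(a, b) + g(a) + h(b)` in a field of `p ^ k` elements are such a function, with `X = p`, for all polynomials `f` over this
field with a monomial which contains both variables, arbitrary functions `g` and `h`, and arbitrary finite subsets. -/
theorem result :
    (∀ (k : ℕ) (n d : Fin k → ℕ), 2 ≤ k → (∀ i, 1 ≤ n i) → (∀ i, 2 ≤ d i ∧ d i ≤ 3 ∧ d i ≤ n i + 1) →
      (∃ i, d i ≤ n i) → (Mono n d).Finite ∧ ∀ (N : ℕ) (e : Fin N ≃ Mono n d) (η W : ℝ) (D : ℕ), 0 < η → 1 ≤ W →
      ∃ X₀ : ℝ, ∀ X : ℝ, X₀ ≤ X → ∀ (α β : Type) (A : Finset α) (B : Finset β) (F : α → β → Fin N → ℝ),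
        η * X ^ N ≤ A.card → η * X ^ N ≤ B.card → (∀ a ∈ A, ∀ b ∈ B, ∀ i, |F a b i| ≤ X) → RareV D A B F →
        ({z : α × β | z.1 ∈ A ∧ z.2 ∈ B ∧ ¬ Near e W (F z.1 z.2)}.ncard : ℝ) ≤ η * (A.card * B.card)) ∧
    ∀ (p : ℕ) [Fact p.Prime] (k : ℕ) (K : Type) [Field K] [Algebra (ZMod p) K] (e : Module.Basis (Fin k) (ZMod p) K)
      (d : ℕ) (f : MvPolynomial (Fin 2) K), f.totalDegree ≤ d → (∃ m ∈ f.support, m 0 ≠ 0 ∧ m 1 ≠ 0) →
      ∀ (g h : K → K) (A B : Finset K),
        RareV d A B (fun a b i => (((e.repr (MvPolynomial.eval ![a, b] f + g a + h b) i).val : ℕ) : ℝ)) := by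
  classical
  refine ⟨fun k n d hk hn hd hrc => ⟨mono_finite n d, fun N e η W D hη hW => ?_⟩, coordinates⟩
  have hlim := RandomUnirational.result k n d hk hn hd hrc
  obtain ⟨S, hS⟩ : ∃ S : Set (MvPolynomial (Σ i : Fin k, Fin (n i + 1)) ℤ),
      S = {f | (∀ s ∈ f.support, s ∈ Mono n d) ∧ LocallySoluble f ∧ ¬ Good f} := ⟨_, rfl⟩
  obtain ⟨h, hh⟩ : ∃ h : MvPolynomial (Σ i : Fin k, Fin (n i + 1)) ℤ → Fin N → ℝ,
      h = fun f i => ((f.coeff (e i : (Σ i : Fin k, Fin (n i + 1)) →₀ ℕ) : ℤ) : ℝ) := ⟨_, rfl⟩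
  have hcount : ∀ ε : ℝ, 0 < ε → ∃ X₀ : ℝ, ∀ X : ℝ, X₀ ≤ X →
      {t | t ∈ S ∧ ∀ i, |h t i| ≤ X}.Finite ∧ ({t | t ∈ S ∧ ∀ i, |h t i| ≤ X}.ncard : ℝ) ≤ ε * X ^ N := by
    intro ε hε
    obtain ⟨ε', hε'⟩ : ∃ ε', ε' = ε / 3 ^ N := ⟨_, rfl⟩
    have hε'0 : 0 < ε' := by rw [hε']; positivity
    have h1 := hlim.eventually (lt_mem_nhds (show 1 - ε' < 1 by linarith))
    rw [Filter.eventually_atTop] at h1
    obtain ⟨H₀, hH₀⟩ := h1
    refine ⟨max 1 ((H₀ : ℝ) + 1), fun X hX => ?_⟩
    have hX1 : 1 ≤ X := (le_max_left _ _).trans hX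
    have hXH : (H₀ : ℝ) + 1 ≤ X := (le_max_right _ _).trans hX
    have hX0 : 0 < X := by linarith
    obtain ⟨H, hH⟩ : ∃ H : ℕ, H = ⌊X⌋₊ := ⟨_, rfl⟩
    have hHX : (H : ℝ) ≤ X := by rw [hH]; exact Nat.floor_le hX0.le
    have hHH : H₀ ≤ H := by rw [hH]; exact Nat.le_floor (by linarith)
    obtain ⟨P, hP⟩ : ∃ P : Set (MvPolynomial (Σ i : Fin k, Fin (n i + 1)) ℤ),
        P = {f | f ∈ Forms n d H ∧ LocallySoluble f ∧ ∀ (L : Type) [Field L] [CharZero L],
          Irreducible (formOver L f) ∧ IsUnirational L f ∧ IsDense L f} := ⟨_, rfl⟩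
    obtain ⟨Q, hQ⟩ : ∃ Q : Set (MvPolynomial (Σ i : Fin k, Fin (n i + 1)) ℤ),
        Q = {f | f ∈ Forms n d H ∧ LocallySoluble f} := ⟨_, rfl⟩
    obtain ⟨hfin, hcard⟩ := forms_card e H
    have hQfin : Q.Finite := hfin.subset (by rw [hQ]; exact fun f hf => hf.1)
    have hPQ : P ⊆ Q := by rw [hP, hQ]; exact fun f hf => ⟨hf.1, hf.2.1⟩
    have hsub : {t | t ∈ S ∧ ∀ i, |h t i| ≤ X} ⊆ Q \ P := by
      rintro f ⟨hf, hfX⟩
      rw [hS] at hf
      obtain ⟨g1, g2, g3⟩ := hf
      have g4 : f ∈ Forms n d H := by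
        refine ⟨g1, fun s => ?_⟩
        by_cases hs : s ∈ Mono n d
        · have g5 := hfX (e.symm ⟨s, hs⟩)
          rw [hh] at g5
          simp only [Equiv.apply_symm_apply] at g5
          have g6 : ((f.coeff s).natAbs : ℝ) ≤ X := by
            rw [Nat.cast_natAbs, Int.cast_abs]
            exact g5
          have g7 : (f.coeff s).natAbs ≤ H := by rw [hH]; exact Nat.le_floor g6
          rw [Int.abs_eq_natAbs]
          exact_mod_cast g7
        · have g5 : s ∉ f.support := fun h => hs (g1 s h)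
          rw [MvPolynomial.notMem_support_iff] at g5
          rw [g5, abs_zero]
          exact Int.natCast_nonneg H
      refine ⟨by rw [hQ]; exact ⟨g4, g2⟩, fun hc => g3 ?_⟩
      rw [hP] at hc
      exact fun L _ _ => hc.2.2 L
    refine ⟨(hQfin.subset Set.diff_subset).subset hsub, ?_⟩
    have k1 : (({t | t ∈ S ∧ ∀ i, |h t i| ≤ X}.ncard : ℕ) : ℝ) ≤ ((Q \ P).ncard : ℝ) := by
      exact_mod_cast Set.ncard_le_ncard hsub (hQfin.subset Set.diff_subset)
    have k2 : ((Q \ P).ncard : ℝ) = (Q.ncard : ℝ) - P.ncard := by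
      have := Set.ncard_diff_add_ncard_of_subset hPQ hQfin
      have h2 : ((Q \ P).ncard : ℝ) + P.ncard = Q.ncard := by exact_mod_cast this
      linarith
    have k3 : (1 - ε') * (Q.ncard : ℝ) ≤ P.ncard := by
      have h2 := hH₀ H hHH
      rw [← hP, ← hQ] at h2
      rcases Nat.eq_zero_or_pos Q.ncard with h3 | h3
      · rw [h3]
        simp
      · have h4 : (0 : ℝ) < Q.ncard := by exact_mod_cast h3
        exact ((lt_div_iff₀ h4).1 h2).le
    have k4 : (Q.ncard : ℝ) ≤ (3 * X) ^ N := by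
      have h2 : Q.ncard ≤ (2 * H + 1) ^ N :=
        (Set.ncard_le_ncard (by rw [hQ]; exact fun f hf => hf.1) hfin).trans hcard
      have h3 : ((2 * H + 1 : ℕ) : ℝ) ≤ 3 * X := by
        push_cast
        linarith
      calc (Q.ncard : ℝ) ≤ (((2 * H + 1) ^ N : ℕ) : ℝ) := by exact_mod_cast h2
        _ = ((2 * H + 1 : ℕ) : ℝ) ^ N := by rw [Nat.cast_pow]
        _ ≤ (3 * X) ^ N := pow_le_pow_left₀ (Nat.cast_nonneg _) h3 N
    calc (({t | t ∈ S ∧ ∀ i, |h t i| ≤ X}.ncard : ℕ) : ℝ) ≤ (Q.ncard : ℝ) - P.ncard := k1.trans k2.le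
      _ ≤ ε' * Q.ncard := by linarith
      _ ≤ ε' * (3 * X) ^ N := mul_le_mul_of_nonneg_left k4 hε'0.le
      _ = ε * X ^ N := by
          rw [hε', mul_pow]
          have : (3 : ℝ) ^ N ≠ 0 := by positivity
          field_simp
  obtain ⟨X₀, hX₀⟩ := dense_zero_v S h hcount η W D hη hW
  refine ⟨X₀, fun X hX α β A B F hA hB hF hR => ?_⟩
  refine le_trans (le_of_eq ?_) (hX₀ X hX α β A B F hA hB hF hR)
  congr 2
  ext z
  simp only [Set.mem_ofPred_eq, Near, hS, hh]
  push Not
  refine and_congr_right fun _ => and_congr_right fun _ => ⟨?_, ?_⟩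
  · rintro ⟨f, h1, h2, h3, h4⟩
    exact ⟨f, ⟨h1, h3, h4⟩, h2⟩
  · rintro ⟨f, ⟨h1, h3, h4⟩, h2⟩
    exact ⟨f, h1, h2, h3, h4⟩

end Pool.Agent.Results.MP_b62148_ag.MixedOnDenseSets
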